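import Pool.Agent.Q4.SPC.Stm3

/-!
# Project SPC, job GN: rational similitudes of level `L` are integral (helper230)
-/

set_option autoImplicit false

open IsDedekindDomain NumberField Matrix Q4.GLC

namespace Q230.SPC

open Q4.SPC

variable {F : Type} [Field F] [NumberField F] {n : ℕ}

/-- integrality of numbers congruent to one -/
theorem int_one {L : ℕ} (hL : 1 ≤ L) {a : F} (h : DvdN L (algebraMap F (Af F) a - 1)) :
    ∃ b : 𝓞 F, a = algebraMap (𝓞 F) F (1 + (L : 𝓞 F) * b) := by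
  obtain ⟨b, hb⟩ := tInt F (a - 1) L hL (by
    rw [map_sub, map_one]
    exact h)
  refine ⟨b, ?_⟩
  rw [map_add, map_one, map_mul, map_natCast, ← hb]
  ring

/-- job GN -/
theorem tGN : GN := by
  intro F _ _ n L hL δ hδ
  obtain ⟨⟨h1, -⟩, h3, h4⟩ := mem_UG.1 hδ
  -- the similitude factor
  have e3 : (dG F n δ).1.2.1 = algebraMap F (Af F) δ.1.2.1 := rfl
  have e4 : (dG F n δ).1.2⁻¹.1 = algebraMap F (Af F) δ.1.2⁻¹.1 := by
    have h5 : (dG F n δ).1.2 = Units.map (algebraMap F (Af F)).toMonoidHom δ.1.2 := rfl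
    rw [h5, ← map_inv]
    rfl
  rw [e3] at h3
  have h4' := h4
  rw [e4] at h4
  obtain ⟨b, hb⟩ := int_one hL h3
  obtain ⟨b', hb'⟩ := int_one hL h4
  have hinj : Function.Injective (algebraMap (𝓞 F) F) := RingOfIntegers.coe_injective
  have hbb : (1 + (L : 𝓞 F) * b) * (1 + (L : 𝓞 F) * b') = 1 := by
    apply hinj
    rw [map_mul, ← hb, ← hb', map_one, ← Units.val_mul, mul_inv_cancel, Units.val_one]
  let ε : (𝓞 F)ˣ := ⟨1 + (L : 𝓞 F) * b, 1 + (L : 𝓞 F) * b', hbb, by rw [mul_comm]; exact hbb⟩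
  have hε : Units.map (algebraMap (𝓞 F) F).toMonoidHom ε = δ.1.2 := Units.ext hb.symm
  -- the symplectic part
  obtain ⟨s, hs⟩ := exists_inc (g := δ * (dnu n δ.1.2)⁻¹) (by
    rw [map_mul, map_inv, nu_dnu, nu_apply, mul_inv_cancel])
  have hsv : s.1 = δ.1.1.1 * fromBlocks 1 0 0 (δ.1.2⁻¹.1 • 1) := by
    rw [← inc_val s, hs]
    rfl
  have hD : ∀ i j, DvdN L ((fromBlocks 1 0 0 ((dG F n δ).1.2⁻¹.1 • 1) - 1 :
      Matrix (Fin n ⊕ Fin n) (Fin n ⊕ Fin n) (Af F)) i j) := by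
    intro i j
    rw [← fromBlocks_one, Matrix.sub_apply]
    rcases i with i | i <;> rcases j with j | j
    · simpa using dvdN_zero L
    · simpa using dvdN_zero L
    · simpa using dvdN_zero L
    · rw [fromBlocks_apply₂₂, fromBlocks_apply₂₂, Matrix.smul_apply, Matrix.one_apply]
      split_ifs
      · rw [smul_eq_mul, mul_one]
        exact h4'
      · rw [smul_zero, sub_zero]
        exact dvdN_zero L
  have hsU : dS F n s ∈ US F n L := by
    rw [mem_US]
    have e5 : (dS F n s).1 = (dG F n δ).1.1.1 * fromBlocks 1 0 0 ((dG F n δ).1.2⁻¹.1 • 1) := by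
      have e6 : (dS F n s).1 = s.1.map (algebraMap F (Af F)) := rfl
      have e7 : (dG F n δ).1.1.1 = δ.1.1.1.map (algebraMap F (Af F)) := rfl
      have e10 : (1 : Matrix (Fin n) (Fin n) F).map (algebraMap F (Af F)) = 1 :=
        Matrix.map_one _ (map_zero _) (map_one _)
      have e11 : (0 : Matrix (Fin n) (Fin n) F).map (algebraMap F (Af F)) = 0 :=
        Matrix.map_zero _ (map_zero _)
      have e12 : (δ.1.2⁻¹.1 • (1 : Matrix (Fin n) (Fin n) F)).map (algebraMap F (Af F)) =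
          algebraMap F (Af F) δ.1.2⁻¹.1 • (1 : Matrix (Fin n) (Fin n) (Af F)) := by
        refine Matrix.ext fun i j => ?_
        rw [Matrix.map_apply, Matrix.smul_apply, Matrix.smul_apply, smul_eq_mul, smul_eq_mul,
          map_mul, Matrix.one_apply, Matrix.one_apply]
        split_ifs
        · rw [map_one]
        · rw [map_zero]
      rw [e6, e7, hsv, Matrix.map_mul, e4, fromBlocks_map, e10, e11, e12]
    have e8 : (dS F n s).1 - 1 =
        ((dG F n δ).1.1.1 - 1) * fromBlocks 1 0 0 ((dG F n δ).1.2⁻¹.1 • 1) +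
          (fromBlocks 1 0 0 ((dG F n δ).1.2⁻¹.1 • 1) - 1) := by
      rw [e5, sub_mul, one_mul]
      abel
    rw [e8]
    have hD1 : DvdS 1 (fromBlocks 1 0 0 ((dG F n δ).1.2⁻¹.1 • 1) :
        Matrix (Fin n ⊕ Fin n) (Fin n ⊕ Fin n) (Af F)) := by
      have e9 : (fromBlocks 1 0 0 ((dG F n δ).1.2⁻¹.1 • 1) :
          Matrix (Fin n ⊕ Fin n) (Fin n ⊕ Fin n) (Af F)) =
          (fromBlocks 1 0 0 ((dG F n δ).1.2⁻¹.1 • 1) - 1) + 1 := by abel
      rw [e9]
      exact DvdS.add (DvdS.int hD) dvdS_one_one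
    exact DvdS.add (DvdS.mul_int h1 hD1) hD
  obtain ⟨d, hd, hdL⟩ := exists_int_sp hL hsU
  refine ⟨d, ε, hdL, ?_, ?_⟩
  · change (L : 𝓞 F) ∣ (1 + (L : 𝓞 F) * b) - 1
    rw [add_sub_cancel_left]
    exact dvd_mul_right _ _
  · rw [hd, hs, hε, inv_mul_cancel_right]

end Q230.SPC
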